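import Mathlib

namespace Pool.Agent.Results.MP_b7336c_co.Full

open Finset

/-- Binary representation, leading digit first. -/
def bin (j : ℕ) : List ℕ := (Nat.digits 2 j).reverse

/-- Number of (possibly overlapping) occurrences of `w` as a block of consecutive letters of `s`. -/
def occ (w s : List ℕ) : ℕ := ((range s.length).filter (fun p => w <+: s.drop p)).card

/-- The matrix `M_n`; index `i : Fin N` stands for the integer `i + 1`. -/
def M (n : ℕ) : Matrix (Fin (2 ^ 2 ^ n)) (Fin (2 ^ 2 ^ n)) ℤ :=
  fun i j => occ (bin (j.val + 1)) (bin (i.val + 1))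

/-- The matrix with a single `1`, in row `N` and column `1`. -/
def E (n : ℕ) : Matrix (Fin (2 ^ 2 ^ n)) (Fin (2 ^ 2 ^ n)) ℤ :=
  fun i j => if i.val + 1 = 2 ^ 2 ^ n ∧ j.val + 1 = 1 then 1 else 0

lemma bin_inj {a b : ℕ} (h : bin a = bin b) : a = b :=
  Nat.digits.injective 2 (List.reverse_injective h)

lemma bin_pos (a : ℕ) : 1 ≤ (bin (a + 1)).length := by
  have : Nat.digits 2 (a + 1) ≠ [] := Nat.digits_ne_nil_iff_ne_zero.2 (by omega)
  unfold bin
  rw [List.length_reverse]
  exact List.length_pos_iff.2 this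

lemma bin_pow (k : ℕ) : bin (2 ^ k) = 1 :: List.replicate k 0 := by
  have := Nat.digits_base_pow_mul (b := 2) (k := k) (m := 1) (by omega) (by omega)
  rw [mul_one] at this
  unfold bin
  rw [this]
  simp

lemma occ_self (s : List ℕ) (h : 1 ≤ s.length) : occ s s = 1 := by
  unfold occ
  rw [card_eq_one]
  refine ⟨0, ?_⟩
  ext p
  simp only [mem_filter, mem_range, mem_singleton]
  constructor
  · rintro ⟨h1, h2⟩
    have := h2.length_le
    rw [List.length_drop] at this
    omega
  · rintro rfl
    exact ⟨by omega, by simp⟩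

lemma occ_ne {w s : List ℕ} (h : occ w s ≠ 0) : ∃ p, p < s.length ∧ w <+: s.drop p := by
  obtain ⟨p, hp⟩ := card_pos.1 (Nat.pos_of_ne_zero h)
  simp only [mem_filter, mem_range] at hp
  exact ⟨p, hp⟩

lemma occ_lt {w s : List ℕ} (h : occ w s ≠ 0) (hne : w ≠ s) : w.length < s.length := by
  obtain ⟨p, h1, h2⟩ := occ_ne h
  have h3 := h2.length_le
  rw [List.length_drop] at h3
  by_contra hc
  have : p = 0 := by omega
  subst this
  exact hne (h2.eq_of_length (by simp; omega))

lemma occ_pow (k : ℕ) : occ (bin (2 ^ k)) (bin (2 ^ (k + 1))) = 1 := by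
  unfold occ
  rw [card_eq_one, bin_pow, bin_pow]
  refine ⟨0, ?_⟩
  ext p
  simp only [mem_filter, mem_range, mem_singleton]
  constructor
  · rintro ⟨h1, h2⟩
    by_contra hp
    obtain ⟨q, rfl⟩ := Nat.exists_eq_succ_of_ne_zero hp
    have : (1 : ℕ) ∈ List.replicate (k + 1) 0 :=
      List.mem_of_mem_drop (h2.subset (by simp))
    simp at this
  · rintro rfl
    refine ⟨by simp, ?_⟩
    rw [List.drop_zero, List.replicate_succ']
    exact ⟨[0], by simp⟩

lemma occ_uniq {k a : ℕ} (h : occ (bin (a + 1)) (bin (2 ^ (k + 1))) ≠ 0)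
    (hl : (bin (a + 1)).length = k + 1) : a + 1 = 2 ^ k := by
  obtain ⟨p, h1, h2⟩ := occ_ne h
  rw [bin_pow] at h1 h2
  rcases p with _ | q
  · apply bin_inj
    rw [bin_pow, List.prefix_iff_eq_take.1 h2, hl]
    simp [List.take_replicate]
  · exfalso
    have hne : Nat.digits 2 (a + 1) ≠ [] := Nat.digits_ne_nil_iff_ne_zero.2 (by omega)
    have h3 := Nat.getLast_digit_ne_zero 2 (show a + 1 ≠ 0 by omega)
    have h4 : (Nat.digits 2 (a + 1)).getLast hne ∈ bin (a + 1) := by
      unfold bin
      exact List.mem_reverse.2 (List.getLast_mem hne)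
    have h5 : (Nat.digits 2 (a + 1)).getLast hne ∈ List.replicate (k + 1) 0 :=
      List.mem_of_mem_drop (h2.subset h4)
    exact h3 (List.eq_of_mem_replicate h5)

def A (N : ℕ) : Matrix (Fin N) (Fin N) (ZMod 2) :=
  fun i j => if i = j then 0 else occ (bin (j.val + 1)) (bin (i.val + 1))

lemma A_ne {N : ℕ} {i j : Fin N} (h : A N i j ≠ 0) :
    occ (bin (j.val + 1)) (bin (i.val + 1)) ≠ 0 ∧
      (bin (j.val + 1)).length < (bin (i.val + 1)).length := by
  unfold A at h
  split_ifs at h with hij
  · exact absurd rfl h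
  · have h0 : occ (bin (j.val + 1)) (bin (i.val + 1)) ≠ 0 := fun h0 => h (by rw [h0]; simp)
    refine ⟨h0, occ_lt h0 fun he => hij ?_⟩
    have := bin_inj he
    exact Fin.ext (by omega)

lemma pow_ne {N : ℕ} (k : ℕ) : ∀ i j : Fin N, (A N ^ k) i j ≠ 0 →
    (bin (j.val + 1)).length + k ≤ (bin (i.val + 1)).length := by
  induction k with
  | zero =>
    intro i j h
    have : i = j := by
      by_contra hc
      exact h (by simp [Matrix.one_apply_ne hc])
    subst this
    simp
  | succ k ih =>
    intro i j h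
    rw [pow_succ', Matrix.mul_apply] at h
    obtain ⟨l, _, hl⟩ := exists_ne_zero_of_sum_ne_zero h
    have h1 := (A_ne (left_ne_zero_of_mul hl)).2
    have h2 := ih l j (right_ne_zero_of_mul hl)
    omega

lemma pow_one' {N : ℕ} (j : Fin N) (hj : j.val = 0) (k : ℕ) :
    ∀ i : Fin N, i.val + 1 = 2 ^ k → (A N ^ k) i j = 1 := by
  induction k with
  | zero =>
    intro i hi
    have : i = j := Fin.ext (by omega)
    subst this
    simp
  | succ k ih =>
    intro i hi
    have hp : 1 ≤ 2 ^ k := Nat.one_le_two_pow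
    have hi2 := i.2
    let l : Fin N := ⟨2 ^ k - 1, by omega⟩
    have hl : l.val + 1 = 2 ^ k := by simp only [l]; omega
    rw [pow_succ', Matrix.mul_apply, sum_eq_single l]
    · rw [ih l hl, mul_one]
      unfold A
      rw [if_neg (fun h => by rw [h] at hi; omega), hl, hi, occ_pow]
      simp
    · intro m _ hm
      by_contra hc
      obtain ⟨h0, h1⟩ := A_ne (left_ne_zero_of_mul hc)
      have h2 := pow_ne k m j (right_ne_zero_of_mul hc)
      have h3 := bin_pos j.val
      rw [hi] at h0 h1
      rw [bin_pow] at h1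
      simp only [List.length_cons, List.length_replicate] at h1
      have := occ_uniq h0 (by omega)
      exact hm (Fin.ext (by omega))
    · simp

theorem result (n : ℕ) (_hn : 1 ≤ n) (i j : Fin (2 ^ 2 ^ n)) :
    (M n ^ 2 ^ n) i j ≡ (1 + E n) i j [ZMOD 2] := by
  haveI : Nonempty (Fin (2 ^ 2 ^ n)) := ⟨i⟩
  let φ := (Int.castRingHom (ZMod 2)).mapMatrix (m := Fin (2 ^ 2 ^ n))
  have hM : φ (M n) = 1 + A _ := by
    ext a b
    simp only [φ, RingHom.mapMatrix_apply, Matrix.map_apply, M, A, Matrix.add_apply,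
      Matrix.one_apply]
    split_ifs with h
    · subst h
      rw [occ_self _ (bin_pos _)]
      simp
    · simp
  have hE : φ (E n) = A _ ^ 2 ^ n := by
    ext a b
    simp only [φ, RingHom.mapMatrix_apply, Matrix.map_apply, E]
    split_ifs with h
    · rw [pow_one' b (by omega) _ a h.1]
      simp
    · by_contra hc
      have h1 := pow_ne (2 ^ n) a b (fun h0 => hc (by rw [h0]; simp))
      have h2 := bin_pos b.val
      have h3 : ¬ (Nat.digits 2 (a.val + 1)).length ≤ 2 ^ n := by
        unfold bin at h1 h2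
        simp only [List.length_reverse] at h1 h2
        omega
      rw [Nat.digits_length_le_iff (by omega)] at h3
      have ha := a.2
      have h4 : a.val + 1 = 2 ^ 2 ^ n := by omega
      rw [h4, bin_pow] at h1
      simp only [List.length_cons, List.length_replicate] at h1
      have h5 : (Nat.digits 2 (b.val + 1)).length ≤ 1 := by
        unfold bin at h1
        simp only [List.length_reverse] at h1
        omega
      rw [Nat.digits_length_le_iff (by omega)] at h5
      exact h ⟨h4, by omega⟩
  have key : φ (M n ^ 2 ^ n) = φ (1 + E n) := by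
    rw [map_pow, map_add, map_one, hM, hE,
      add_pow_char_pow_of_commute 2 n (Commute.one_left _), one_pow]
  have := congrFun (congrFun key i) j
  simp only [φ, RingHom.mapMatrix_apply, Matrix.map_apply, eq_intCast] at this
  exact (ZMod.intCast_eq_intCast_iff _ _ 2).1 this

end Pool.Agent.Results.MP_b7336c_co.Full
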